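import Pool.Agent.helper81.BS.Defs

/-!
# Edge bisection, graph part: the statements

Every module `XX` proves `theorem XX ... : XX_stmt`. Any other statement of this file may be a
hypothesis, but only statements BEFORE the one to be proved (no circles).
No machine model here: the functions of `Defs` are ordinary functions, `citer`, `cfold` are
iterations with clipping (`PL/Clip.lean`: `citer_eq`, `citer_inv`, `cfold_eq`, `cfold_inv`; `Fits` is
unfolded by simp). `fmem`, `fsub`, `eqb`, `leb` are Boolean versions of `∈`, `⊆`, `=`, `≤` (unfold them).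
-/

set_option autoImplicit false
set_option linter.dupNamespace false
set_option linter.unusedVariables false
set_option linter.unusedSectionVars false

namespace Pool.Agent.helper81.BS

open Pool.Agent.helper81.PL

/-! ### Mathematics of cuts (M) -/

/-- M1: submodularity. Proof: `card` of filters as sums of indicators over `e ∈ E`; the inequality holds
for every single `e` (cases on the memberships of its two ends in `X`, `Y`). -/
def M1_stmt : Prop :=
  ∀ (n : ℕ) (E X Y : Finset ℕ), dd n E (X ∪ Y) + dd n E (X ∩ Y) ≤ dd n E X + dd n E Y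

/-- M2: posimodularity with the defect. Same proof, equality for every edge. -/
def M2_stmt : Prop :=
  ∀ (n : ℕ) (E A C : Finset ℕ),
    dd n E (A \ C) + dd n E (C \ A) + 2 * (E.filter (fun e =>
      (e / n ∈ A ∩ C ∧ e % n ∉ A ∪ C) ∨ (e % n ∈ A ∩ C ∧ e / n ∉ A ∪ C))).card =
    dd n E A + dd n E C

/-- M3a: components exist. (`K` = the union of all `Y ⊆ X` with `Conn n E v Y`, or a `Conn` subset of maximal
cardinality: if `a ∈ K`, `b ∈ X \ K` are adjacent then `insert b K` is `Conn`.) -/
def M3a_stmt : Prop :=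
  ∀ (n : ℕ) (E X : Finset ℕ) (v : ℕ), v ∈ X → ∃ K, IsComp n E X v K

/-- M3b: properties of components: the edges leaving `K` leave `X`, and `K` contains every connected
subset of `X` containing `v`. (An edge with an end in `K` and the other end in `X \ K` would be an adjacency.) -/
def M3b_stmt : Prop :=
  ∀ (n : ℕ) (E X : Finset ℕ) (v : ℕ) (K : Finset ℕ), WF n E → X ⊆ Finset.range n →
    IsComp n E X v K →
    dl n E K ⊆ dl n E X ∧ dd n E X = dd n E K + dd n E (X \ K) ∧
    ∀ Y ⊆ X, Conn n E v Y → Y ⊆ K

/-- M4: unions of feasible sets, and extension by an adjacent vertex. -/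
def M4_stmt : Prop :=
  ∀ (n : ℕ) (E Q : Finset ℕ) (v : ℕ) (M : Finset ℕ), Feas n E Q v M →
    (∀ M', Feas n E Q v M' → Feas n E Q v (M ∪ M')) ∧
    ∀ a ∈ M, ∀ b < n, b ∉ Q → adjb n E a b = true → Feas n E Q v (insert b M)

/-- M5: the furthest minimal set exists (and is unique). Proof: among the feasible sets containing
`P` with `dd` minimal (`= lam`) take `M` of maximal cardinality. If `M'` is another one then
`dd (M ∪ M') + dd (M ∩ M') ≤ 2 lam` and `dd (M ∩ M') ≥ lam`: the component of `v` in `M ∩ M'` contains `P` (M3b), is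
feasible and has not more leaving edges. So `M ∪ M'` is a minimiser (M4), `M' ⊆ M`. -/
def M5_stmt : Prop :=
  ∀ (n : ℕ) (E Q : Finset ℕ) (v : ℕ) (P : Finset ℕ), WF n E → Feas n E Q v P →
    ∃! M, IsFM n E Q v P M

/-- M6: the minimum over all sets (connected or not). Proof: component of `v` in `X`, M3a, M3b. -/
def M6_stmt : Prop :=
  ∀ (n : ℕ) (E Q : Finset ℕ) (v : ℕ) (P M : Finset ℕ), WF n E → Feas n E Q v P →
    IsFM n E Q v P M →
    ∀ X ⊆ Finset.range n, P ⊆ X → Disjoint X Q → dd n E M ≤ dd n E X

/-- M7: furthest minimal sets are important. -/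
def M7_stmt : Prop :=
  ∀ (n : ℕ) (E Q : Finset ℕ) (v : ℕ) (P M : Finset ℕ), IsFM n E Q v P M → Imp n E Q v M

/-- M8: an important set containing `P` contains the furthest minimal set of `P`. Proof:
`dd (R ∪ M) + dd (R ∩ M) ≤ dd R + dd M` (M1), `dd (R ∩ M) ≥ dd M` (M6), so `dd (R ∪ M) ≤ dd R`, `R ∪ M` is feasible
(M4), hence `R ∪ M = R`. -/
def M8_stmt : Prop :=
  ∀ (n : ℕ) (E Q : Finset ℕ) (v : ℕ) (P M R : Finset ℕ), WF n E → Feas n E Q v P →
    IsFM n E Q v P M → Imp n E Q v R → P ⊆ R → M ⊆ R

/-- M9: push closure. `L` is a family of sets such that: it contains at level `0` the furthest minimal set of `{v}`,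
is increasing, and with `M` at level `i` the set `IsFM (insert b M)` is in level `i + 1`, `b` adjacent to `M`
(always if `dd ≤ c`). Then every important set with `dd ≤ c` is in level `c + 1`.
Proof: for all `i` there is `M ∈ L i` important, `M ⊆ R`, with `M = R` or `i ≤ dd M`: from `M ≠ R` get (Conn R) adjacent
`a ∈ M`, `b ∈ R \ M`; `M' = FM (insert b M) ⊆ R` (M8, M4, M5, M7), `dd M < dd M'` (M important), `dd M' ≤ dd R` (M' minimal). At
`i = c + 1`: `M ≠ R` would give `c + 1 ≤ dd M < dd R ≤ c`. -/
def M9_stmt : Prop :=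
  ∀ (n : ℕ) (E Q : Finset ℕ) (v c : ℕ) (L : ℕ → Finset ℕ → Prop), WF n E → v < n → v ∉ Q →
    (∀ M, IsFM n E Q v {v} M → dd n E M ≤ c → L 0 M) →
    (∀ i M, L i M → L (i + 1) M) →
    (∀ i M, L i M → Imp n E Q v M → ∀ b < n, b ∉ M → b ∉ Q → (∃ a ∈ M, adjb n E a b = true) →
      ∀ M', IsFM n E Q v (insert b M) M' → dd n E M' ≤ c → L (i + 1) M') →
    ∀ R, Imp n E Q v R → dd n E R ≤ c → L (c + 1) R

/-- M10: deleting an edge leaving `M`. Let `e ∈ E` have exactly one end in `M` (feasible). Then `M` is feasible for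
`E.erase e`, and every important `R ⊇ M` which also has exactly one end of `e` inside is important for `E.erase e`
with `dd` smaller by one; `dd` of any set drops at most by one. -/
def M10_stmt : Prop :=
  ∀ (n : ℕ) (E Q : Finset ℕ) (v : ℕ) (e : ℕ), WF n E → e ∈ E →
    (∀ M, Feas n E Q v M → e ∈ dl n E M → Feas n (E.erase e) Q v M) ∧
    (∀ M, dd n E M ≤ dd n (E.erase e) M + 1) ∧
    (∀ R, Imp n E Q v R → e ∈ dl n E R →
      Imp n (E.erase e) Q v R ∧ dd n (E.erase e) R + 1 = dd n E R)

/-- M11: the number of important sets containing `P` with at most `c` leaving edges is at most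
`2 ^ (2 c - dd M)`, `M` = furthest minimal set of `P`.
Proof: induction on `2 c - dd M` (generalise everything). All `R ∈ F` contain `M` (M8). If no edge leaves `M`
(`dl n E M = ∅`) then `R = M` for all `R ∈ F` (Conn R). Otherwise take `e ∈ dl n E M`, `a ∈ M`, `b ∉ M` its ends. The `R ∈ F` with `b ∈ R`
(so `b ∉ Q`, `b < n`): apply the induction hypothesis to `P' = insert b M` (M4), whose furthest minimal set `M'` has
`dd M' > dd M` (M7). The `R ∈ F` with `b ∉ R`: `E' = E.erase e`, `c - 1`, `P = M` (M10), the furthest minimal set `M''` has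
`dd' M'' + 1 ≥ dd M'' ≥ dd M`. Both parts: `card * 2 ^ dd M ≤ 4 ^ c / 2`. (`F` empty is trivial; if not, `dd M ≤ c`, M6.) -/
def M11_stmt : Prop :=
  ∀ (n : ℕ) (E Q : Finset ℕ) (v : ℕ) (P M : Finset ℕ) (c : ℕ) (F : Finset (Finset ℕ)), WF n E →
    Feas n E Q v P → IsFM n E Q v P M →
    (∀ R ∈ F, Imp n E Q v R ∧ P ⊆ R ∧ dd n E R ≤ c) → F.card * 2 ^ dd n E M ≤ 4 ^ c

/-- M12: envelope. Among the feasible `M ⊇ K` with `dd M ≤ dd K` take one with `dd` minimal and then `card`
maximal. -/
def M12_stmt : Prop :=
  ∀ (n : ℕ) (E Q : Finset ℕ) (v : ℕ) (K : Finset ℕ), Feas n E Q v K →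
    ∃ R, Imp n E Q v R ∧ K ⊆ R ∧ dd n E R ≤ dd n E K

/-! ### Algorithms (A) -/

/-- A1: `comp` computes the component. The iterates are increasing subsets of `M`, connected; each one is
equal to the next or smaller, so the `n`-th is closed. Clipping: all values are `⊆ range n`. -/
def A1_stmt : Prop :=
  ∀ (N n : ℕ) (E M : Finset ℕ) (v : ℕ), n ≤ N → M ⊆ Finset.range n → v ∈ M →
    IsComp n E M v (comp N n E M v)

/-- A2: the search. Invariant of the lists `L`: all elements are residual paths into `Q`, the heads are distinct, with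
`u :: p ∈ L`, `p ≠ []`, also `p ∈ L` (so the new path `u :: p` is again without repetition: all its vertices are heads).
Each step adds a head or changes nothing; there are at most `n` heads, so after `n` steps the set of heads is
closed. Clipping: at most `n` paths of length at most `n`. -/
def A2_stmt : Prop :=
  ∀ (N n : ℕ) (E D Q : Finset ℕ), n ≤ N → Q ⊆ Finset.range n →
    (∀ p ∈ bfs N n E D Q, RPath n E D Q p) ∧
    Q ⊆ back N n E Q D ∧ back N n E Q D ⊆ Finset.range n ∧
    ∀ u < n, ∀ w ∈ back N n E Q D, res n E D u w = true → u ∈ back N n E Q D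

/-- A3: pushing along a residual path. Arcs of a path without repetition are different, and none of them is in `D`.
Each `push1 a b` changes `net` by `[a ∈ M] - [b ∈ M]` (erase `(b, a)` or add `(a, b)`), the sum telescopes. -/
def A3_stmt : Prop :=
  ∀ (N n : ℕ) (E D Q : Finset ℕ) (p : List ℕ), n * n ≤ N → OKD n E D → RPath n E D Q p →
    OKD n E (pushP N n D p) ∧
    ∀ M, ∀ q, p.getLast? = some q → net n (pushP N n D p) M =
      net n D M + (if p.headD n ∈ M then 1 else 0) - (if q ∈ M then 1 else 0)

/-- A4: the flow. Iterate A3 (`citer_eq`/`citer_inv`: `OKD` implies that the values fit): after `i` augmentations the net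
value is `i`, or there was no augmenting path at some point and then nothing changes any more. -/
def A4_stmt : Prop :=
  ∀ (N n : ℕ) (E Q P : Finset ℕ) (c : ℕ), n * n + n ≤ N → Q ⊆ Finset.range n →
    OKD n E (flow N n E Q P c) ∧ ∃ val : ℕ,
      (∀ M, P ⊆ M → Disjoint M Q → net n (flow N n E Q P c) M = val) ∧
      (augPath N n E Q P (flow N n E Q P c) ≠ none → val = c + 1)

/-- A5: flows and cuts (`D` antisymmetric along the edges of the simple graph `E`). (1) the arcs of `D` leaving `M` are
at most the edges leaving `M` (injective map arc -> edge code). (2) if `B` is closed under residual predecessors then every edge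
leaving `range n \ B` is used outwards. (3) if equality holds for `M` then no residual arc leaves `M`. -/
def A5_stmt : Prop :=
  ∀ (n : ℕ) (E D : Finset ℕ), WF n E → OKD n E D →
    (∀ M ⊆ Finset.range n, net n D M ≤ dd n E M) ∧
    (∀ B ⊆ Finset.range n, (∀ u < n, ∀ w ∈ B, res n E D u w = true → u ∈ B) →
      net n D (Finset.range n \ B) = dd n E (Finset.range n \ B)) ∧
    (∀ M ⊆ Finset.range n, net n D M = dd n E M → ∀ a ∈ M, ∀ b < n, b ∉ M →
      res n E D a b = false)

/-- A6: `fm` computes the furthest minimal set. If the search finds a path then `val = c + 1`, every set has `dd ≥ c + 1` (A4,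
A5 (1)). Otherwise `back` is disjoint from `P` and contains `Q`, `Mfar = range n \ back` has `dd Mfar = val` minimal (A5 (2), (1)); its component of `v` (A1) is
feasible, contains `P`, has `dd ≤ dd Mfar` (M3b). A feasible minimiser `M'` does not meet `back` (follow the residual
path of A2 from a vertex of `M'` into `Q`: it leaves `M'` by a residual arc, contradiction to A5 (3)), so `M' ⊆ Mfar`, so `M' ⊆` component (M3b).
Uniqueness: M5. -/
def A6_stmt : Prop :=
  ∀ (N n : ℕ) (E Q : Finset ℕ) (v : ℕ) (P : Finset ℕ) (c : ℕ) (M : Finset ℕ), n * n + n ≤ N → WF n E →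
    Q ⊆ Finset.range n → Feas n E Q v P →
    (fm N n E Q v P c = some M ↔ IsFM n E Q v P M ∧ dd n E M ≤ c)

/-- A7: the list of important sets. Invariant of the levels: without repetition, all elements important with `dd ≤ c`
(M7, M4), hence at most `4 ^ c` of them (M11 with `P = {v}`), so clipping has no effect. Completeness: M9 with `L i M :=
M ∈` level `i`. -/
def A7_stmt : Prop :=
  ∀ (N n : ℕ) (E Q : Finset ℕ) (v c : ℕ), n * n + n + 4 ^ c ≤ N → WF n E →
    Q ⊆ Finset.range n → v < n → v ∉ Q →
    (impL N n E Q v c).Nodup ∧ (∀ R, R ∈ impL N n E Q v c ↔ Imp n E Q v R ∧ dd n E R ≤ c) ∧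
    (impL N n E Q v c).length ≤ 4 ^ c

/-- A8: the list for all pairs of vertices of `W`. The last part: `v ∈ K`, choose `w ∈ W \ K`, M12 with
`Q = insert w (range n \ W)`, A7. -/
def A8_stmt : Prop :=
  ∀ (N n : ℕ) (E W : Finset ℕ) (c : ℕ), n * n + n + 4 ^ c ≤ N → WF n E → W ⊆ Finset.range n →
    (allImp N n E W c).Nodup ∧ (allImp N n E W c).length ≤ n * n * 4 ^ c ∧
    (∀ R ∈ allImp N n E W c, R ⊆ W ∧ R ≠ W ∧ R.Nonempty ∧ dd n E R ≤ c) ∧
    ∀ v, ∀ K ⊆ W, K ≠ W → Conn n E v K → dd n E K ≤ c →
      ∃ R ∈ allImp N n E W c, K ⊆ R ∧ dd n E R ≤ dd n E K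

/-! ### Tight partitions (T) -/

/-- T1: step (a). By M2 `dd (A \ C) + 2 x ≤ dd A - 1` where `x` = number of edges between `A ∩ C` and the complement of `A ∪ C`;
an edge of `beta` touching `A` but not `A \ C` has an end in `A ∩ C` and is not inside `C`, so it is one of these `x` edges. -/
def T1_stmt : Prop :=
  ∀ (n : ℕ) (E W : Finset ℕ) (PP : List (Finset ℕ)) (A C : Finset ℕ), C ∈ PP →
    dd n E C < dd n E (C \ A) →
    dd n E (A \ C) + 1 ≤ dd n E A ∧
    tt n (beta n E W PP) A + dd n E (A \ C) ≤ tt n (beta n E W PP) (A \ C) + dd n E A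

/-- T2: iteration of step (a): after `i` steps `dd ≤ 2 k - i` or the set is a fixed point; when `dd = 0` a
further step is impossible (T1), so after `2 k` steps it is a fixed point. -/
def T2_stmt : Prop :=
  ∀ (n : ℕ) (E W : Finset ℕ) (k : ℕ) (PP : List (Finset ℕ)) (A : Finset ℕ),
    violb n E W k PP A = true →
    violb n E W k PP ((fun X => uncA n E PP X)^[2 * k] A) = true ∧
    ∀ C ∈ PP, dd n E (C \ ((fun X => uncA n E PP X)^[2 * k] A)) ≤ dd n E C

/-- T3: step (b). `beta` of the new partition = (`beta` minus the edges inside `A`) union `dl n E A`; `tt A` = number of beta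
edges inside `A` + number of beta edges in `dl n E A`. Good: `A` is nonempty (`tt A > 0`), some `C` is not inside `A` as `A ≠ W`. -/
def T3_stmt : Prop :=
  ∀ (n : ℕ) (E W : Finset ℕ) (k : ℕ) (PP : List (Finset ℕ)) (A : Finset ℕ), WF n E →
    W ⊆ Finset.range n → Good n E W k PP → violb n E W k PP A = true →
    (∀ C ∈ PP, dd n E (C \ A) ≤ dd n E C) →
    Good n E W k (uncB PP A) ∧
    (beta n E W (uncB PP A)).card < (beta n E W PP).card

/-- T4: if there is a violating set then there is one in the list `allImp`. For any `A` with `dd A < tt B A`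
there is a connected `K ⊆ A` with `dd K < tt B K`, `dd K ≤ dd A`: induction on `card A`, `K` = component of a vertex `v ∈ A` (M3a, M3b):
`dd A = dd K + dd (A \ K)`, `tt B A ≤ tt B K + tt B (A \ K)`. Then A8 and `tt B K ≤ tt B R`. -/
def T4_stmt : Prop :=
  ∀ (N n : ℕ) (E W : Finset ℕ) (k : ℕ) (PP : List (Finset ℕ)) (A : Finset ℕ),
    n * n + n + 4 ^ (2 * k) ≤ N → WF n E → W ⊆ Finset.range n → violb n E W k PP A = true →
    ∃ R ∈ allImp N n E W (2 * k), violb n E W k PP R = true

/-- T5: the computation of a tight partition. Start: singletons. Every improvement decreases `beta` (T2, T3), `beta ⊆ E`,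
`card E ≤ n * n`; if no improvement is possible the partition is tight (T4). Clipping: partitions of
`W ⊆ range n` have at most `n` parts. -/
def T5_stmt : Prop :=
  ∀ (N n : ℕ) (E W : Finset ℕ) (k : ℕ), n * n + n + 4 ^ (2 * k) ≤ N → WF n E →
    W ⊆ Finset.range n → 2 ≤ W.card → Tight n E W k (tightP N n E W k)

end Pool.Agent.helper81.BS
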