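import Pool.Agent.helper81.PL.Clip

/-!
# Edge bisection: definitions of the graph part (project bs:)

Vertices are the numbers `< n`. An edge `{a, b}` with `a < b < n` is the number `a * n + b`, a graph
is a finite set `E` of such numbers; the ends of `e` are `e / n` and `e % n`. An arc `(a, b)` is also
coded by `a * n + b`. `N` is the padding parameter (all values of the algorithms are clipped by `N`,
which has no effect if `N` is large).
-/

set_option autoImplicit false
set_option linter.dupNamespace false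
set_option linter.unusedVariables false
set_option linter.unusedSectionVars false

namespace Pool.Agent.helper81.BS

open Pool.Agent.helper81.PL

/-! ### Graphs -/

/-- `E` is a set of edge codes -/
def WF (n : ℕ) (E : Finset ℕ) : Prop := ∀ e ∈ E, e / n < e % n ∧ e % n < n

/-- the edges with exactly one end in `M` -/
def dl (n : ℕ) (E M : Finset ℕ) : Finset ℕ :=
  E.filter (fun e => xor (fmem (e / n) M) (fmem (e % n) M) = true)

/-- the number of edges leaving `M` -/
def dd (n : ℕ) (E M : Finset ℕ) : ℕ := (dl n E M).card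

/-- adjacency -/
def adjb (n : ℕ) (E : Finset ℕ) (a b : ℕ) : Bool := fmem (a * n + b) E || fmem (b * n + a) E

/-- `M` contains `v` and is connected -/
def Conn (n : ℕ) (E : Finset ℕ) (v : ℕ) (M : Finset ℕ) : Prop :=
  v ∈ M ∧ ∀ X ⊆ M, v ∈ X → X ≠ M → ∃ a ∈ X, ∃ b ∈ M \ X, adjb n E a b = true

/-- feasible sets: connected, contain `v`, avoid `Q` -/
def Feas (n : ℕ) (E Q : Finset ℕ) (v : ℕ) (M : Finset ℕ) : Prop :=
  M ⊆ Finset.range n ∧ Disjoint M Q ∧ Conn n E v M

/-- `M` is the largest feasible set containing `P` with the minimal number of leaving edges. -/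
def IsFM (n : ℕ) (E Q : Finset ℕ) (v : ℕ) (P M : Finset ℕ) : Prop :=
  Feas n E Q v M ∧ P ⊆ M ∧ ∀ M', Feas n E Q v M' → P ⊆ M' →
    dd n E M ≤ dd n E M' ∧ (dd n E M' ≤ dd n E M → M' ⊆ M)

/-- `K` is the component of `v` in `X` -/
def IsComp (n : ℕ) (E X : Finset ℕ) (v : ℕ) (K : Finset ℕ) : Prop :=
  K ⊆ X ∧ Conn n E v K ∧ ∀ a ∈ K, ∀ b ∈ X \ K, adjb n E a b = false

/-- important sets -/
def Imp (n : ℕ) (E Q : Finset ℕ) (v : ℕ) (R : Finset ℕ) : Prop :=
  Feas n E Q v R ∧ ∀ M, Feas n E Q v M → R ⊂ M → dd n E R < dd n E M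

/-! ### Components -/

/-- one step of the growth of `X` inside `M` -/
def grow1 (n : ℕ) (E M X : Finset ℕ) : Finset ℕ :=
  X ∪ M.filter (fun u => X.sort.any (fun w => adjb n E w u) = true)

/-- the component of `v` in `M` -/
def comp (N n : ℕ) (E M : Finset ℕ) (v : ℕ) : Finset ℕ :=
  citer N n (fun X => grow1 n E M X) {v}

/-! ### Flows -/

/-- residual arcs -/
def res (n : ℕ) (E D : Finset ℕ) (u w : ℕ) : Bool := adjb n E u w && !fmem (u * n + w) D

/-- one step of the search for paths into `Q` -/
def bfs1 (n : ℕ) (E D : Finset ℕ) (L : List (List ℕ)) : List (List ℕ) :=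
  L ++ (List.range n).filterMap (fun u => bif L.any (fun p => eqb (p.headD n) u) then none
    else (L.find? (fun p => res n E D u (p.headD n))).map (fun p => u :: p))

/-- all vertices from which `Q` can be reached, with residual paths (first vertex = head) -/
def bfs (N n : ℕ) (E D Q : Finset ℕ) : List (List ℕ) :=
  citer N n (fun L => bfs1 n E D L) (Q.sort.map (fun q => [q]))

/-- push one unit along the arc `(a, b)` -/
def push1 (n : ℕ) (D : Finset ℕ) (a b : ℕ) : Finset ℕ :=
  bif fmem (b * n + a) D then D.erase (b * n + a) else insert (a * n + b) D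

/-- push one unit along a path -/
def pushP (N n : ℕ) (D : Finset ℕ) (p : List ℕ) : Finset ℕ :=
  cfold N (fun X (e : ℕ × ℕ) => push1 n X e.1 e.2) D (p.zip p.tail)

/-- the path from `P` to `Q` found by the search -/
def augPath (N n : ℕ) (E Q P D : Finset ℕ) : Option (List ℕ) :=
  (bfs N n E D Q).find? (fun p => fmem (p.headD n) P)

/-- one augmentation -/
def aug (N n : ℕ) (E Q P D : Finset ℕ) : Finset ℕ :=
  (augPath N n E Q P D).elim D (fun p => pushP N n D p)

/-- the flow after at most `c + 1` augmentations -/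
def flow (N n : ℕ) (E Q P : Finset ℕ) (c : ℕ) : Finset ℕ :=
  citer N (c + 1) (fun D => aug N n E Q P D) ∅

/-- all vertices which can reach `Q` by residual arcs -/
def back (N n : ℕ) (E Q D : Finset ℕ) : Finset ℕ :=
  ((bfs N n E D Q).map (fun p => p.headD n)).toFinset

/-- the furthest minimal set, from a flow -/
def fmD (N n : ℕ) (E Q : Finset ℕ) (v : ℕ) (P : Finset ℕ) (c : ℕ) (D : Finset ℕ) :
    Option (Finset ℕ) :=
  bif (augPath N n E Q P D).isSome then none
  else bif leb (dd n E (comp N n E (Finset.range n \ back N n E Q D) v)) c then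
    some (comp N n E (Finset.range n \ back N n E Q D) v) else none

/-- the furthest minimal set containing `P`, if at most `c` edges leave it -/
def fm (N n : ℕ) (E Q : Finset ℕ) (v : ℕ) (P : Finset ℕ) (c : ℕ) : Option (Finset ℕ) :=
  fmD N n E Q v P c (flow N n E Q P c)

/-- `D` is an antisymmetric set of arcs along the edges of `E` -/
def OKD (n : ℕ) (E D : Finset ℕ) : Prop :=
  (∀ x ∈ D, x / n < n ∧ x % n < n ∧ adjb n E (x / n) (x % n) = true) ∧
  ∀ a < n, ∀ b < n, a * n + b ∈ D → b * n + a ∉ D

/-- the number of arcs of `D` leaving `M` minus the number of arcs entering `M` -/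
def net (n : ℕ) (D M : Finset ℕ) : ℤ :=
  ∑ x ∈ D, ((if x / n ∈ M then 1 else 0) - (if x % n ∈ M then 1 else 0))

/-- residual paths into `Q` -/
def RPath (n : ℕ) (E D Q : Finset ℕ) (p : List ℕ) : Prop :=
  p.Nodup ∧ (∀ x ∈ p, x < n) ∧ List.IsChain (fun u w => res n E D u w = true) p ∧
  ∃ q ∈ Q, p.getLast? = some q

/-! ### The list of all important sets: push closure -/

/-- the extensions of `M` -/
def ext (N n : ℕ) (E Q : Finset ℕ) (v c : ℕ) (M : Finset ℕ) : List (Finset ℕ) :=
  (List.range n).filterMap (fun b => bif !(fmem b M) && !(fmem b Q) &&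
    M.sort.any (fun a => adjb n E a b) then fm N n E Q v (insert b M) c else none)

/-- one step of the closure -/
def impStep (N n : ℕ) (E Q : Finset ℕ) (v c : ℕ) (L : List (Finset ℕ)) : List (Finset ℕ) :=
  (L ++ L.flatMap (fun M => ext N n E Q v c M)).dedup

/-- all important sets with at most `c` leaving edges -/
def impL (N n : ℕ) (E Q : Finset ℕ) (v c : ℕ) : List (Finset ℕ) :=
  citer N (c + 1) (fun L => impStep N n E Q v c L) (fm N n E Q v {v} c).toList

/-- all important sets inside `W`, for all pairs `v, w` of different vertices of `W` -/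
def allImp (N n : ℕ) (E W : Finset ℕ) (c : ℕ) : List (Finset ℕ) :=
  (W.sort.flatMap (fun v => W.sort.flatMap (fun w => bif eqb v w then []
    else impL N n E (insert w (Finset.range n \ W)) v c))).dedup

/-! ### Tight partitions -/

/-- the edges which touch `A` -/
def tch (n : ℕ) (E A : Finset ℕ) : Finset ℕ :=
  E.filter (fun e => (fmem (e / n) A || fmem (e % n) A) = true)

/-- the edges touching `W` which are not inside a part -/
def beta (n : ℕ) (E W : Finset ℕ) (PP : List (Finset ℕ)) : Finset ℕ :=
  (tch n E W).filter (fun e => (!PP.any (fun C => fmem (e / n) C && fmem (e % n) C)) = true)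

/-- the number of edges of `B` touching `A` -/
def tt (n : ℕ) (B A : Finset ℕ) : ℕ := (tch n B A).card

/-- partitions of `W` -/
def IsPart (W : Finset ℕ) (PP : List (Finset ℕ)) : Prop :=
  (∀ C ∈ PP, C.Nonempty) ∧ PP.Pairwise Disjoint ∧ unions PP = W

/-- good partitions -/
def Good (n : ℕ) (E W : Finset ℕ) (k : ℕ) (PP : List (Finset ℕ)) : Prop :=
  IsPart W PP ∧ 2 ≤ PP.length ∧ ∀ C ∈ PP, 2 ≤ C.card → dd n E C ≤ 2 * k

/-- violating sets (Boolean) -/
def violb (n : ℕ) (E W : Finset ℕ) (k : ℕ) (PP : List (Finset ℕ)) (A : Finset ℕ) : Bool :=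
  fsub A W && !(eqb A W) && leb (dd n E A) (2 * k) && leb (dd n E A + 1) (tt n (beta n E W PP) A)

/-- tight partitions -/
def Tight (n : ℕ) (E W : Finset ℕ) (k : ℕ) (PP : List (Finset ℕ)) : Prop :=
  Good n E W k PP ∧ ∀ A ⊆ W, A ≠ W → dd n E A ≤ 2 * k → tt n (beta n E W PP) A ≤ dd n E A

/-- step (a) of the uncrossing -/
def uncA (n : ℕ) (E : Finset ℕ) (PP : List (Finset ℕ)) (A : Finset ℕ) : Finset ℕ :=
  ((PP.find? (fun C => leb (dd n E C + 1) (dd n E (C \ A)))).map (fun C => A \ C)).getD A

/-- step (b) of the uncrossing -/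
def uncB (PP : List (Finset ℕ)) (A : Finset ℕ) : List (Finset ℕ) :=
  A :: (PP.filter (fun C => !fsub C A)).map (fun C => C \ A)

/-- improvement of a partition by a violating set of the list `RL` -/
def improve (N n : ℕ) (E W : Finset ℕ) (k : ℕ) (RL PP : List (Finset ℕ)) : List (Finset ℕ) :=
  ((RL.find? (fun A => violb n E W k PP A)).map
    (fun A => uncB PP (citer N (2 * k) (fun X => uncA n E PP X) A))).getD PP

/-- a tight partition of `W` -/
def tightP (N n : ℕ) (E W : Finset ℕ) (k : ℕ) : List (Finset ℕ) :=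
  citer N (n * n) (fun PP => improve N n E W k (allImp N n E W (2 * k)) PP)
    (W.sort.map (fun v => {v}))

end Pool.Agent.helper81.BS
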