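import Pool.Agent.helper81.BS.Fin1

set_option autoImplicit false
set_option linter.dupNamespace false
set_option linter.unusedVariables false
set_option linter.unusedSectionVars false

namespace Pool.Agent.helper81.BS

open Pool.Agent.helper81.PL

/-- the pairs joined by an edge, one in `V`, one not -/
def FE_cut {n : ℕ} (G : SimpleGraph (Fin n)) [DecidableRel G.Adj] (V : Finset (Fin n)) :
    Finset (Fin n × Fin n) :=
  (Finset.univ : Finset (Fin n × Fin n)).filter
    (fun p => p.1 < p.2 ∧ G.Adj p.1 p.2 ∧ ¬ (p.1 ∈ V ↔ p.2 ∈ V))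

lemma FE_div {n : ℕ} (a b : Fin n) : (a.val * n + b.val) / n = a.val := by
  rw [mul_comm, Nat.mul_add_div (by have := a.2; omega), Nat.div_eq_of_lt b.2, add_zero]

lemma FE_mod {n : ℕ} (a b : Fin n) : (a.val * n + b.val) % n = b.val := by
  rw [mul_comm, Nat.mul_add_mod, Nat.mod_eq_of_lt b.2]

lemma FE_fmem {n : ℕ} (V : Finset (Fin n)) (a : Fin n) :
    fmem a.val (V.map Fin.valEmbedding) = decide (a ∈ V) := by
  unfold fmem
  rw [decide_eq_decide, Finset.mem_map]
  constructor
  · rintro ⟨b, hb, h⟩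
    rw [← Fin.ext h]; exact hb
  · intro h; exact ⟨a, h, rfl⟩

lemma FE_dd {n : ℕ} (G : SimpleGraph (Fin n)) [DecidableRel G.Adj] (V : Finset (Fin n)) :
    dd n (codes G) (V.map Fin.valEmbedding) = (FE_cut G V).card := by
  have e : dl n (codes G) (V.map Fin.valEmbedding) =
      (FE_cut G V).image (fun p => p.1.val * n + p.2.val) := by
    ext x
    unfold dl codes FE_cut
    simp only [Finset.mem_filter, Finset.mem_image, Finset.mem_univ, true_and, Prod.exists]
    constructor
    · rintro ⟨⟨a, b, ⟨h1, h2⟩, rfl⟩, h3⟩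
      refine ⟨a, b, ⟨h1, h2, ?_⟩, rfl⟩
      rw [FE_div, FE_mod, FE_fmem, FE_fmem] at h3
      by_cases ha : a ∈ V <;> by_cases hb : b ∈ V <;> simp [ha, hb] at h3 ⊢
    · rintro ⟨a, b, ⟨h1, h2, h3⟩, rfl⟩
      refine ⟨⟨a, b, ⟨h1, h2⟩, rfl⟩, ?_⟩
      rw [FE_div, FE_mod, FE_fmem, FE_fmem]
      by_cases ha : a ∈ V <;> by_cases hb : b ∈ V <;> simp [ha, hb] at h3 ⊢
  unfold dd
  rw [e, Finset.card_image_of_injective]
  rintro ⟨a, b⟩ ⟨c, d⟩ h
  simp only at h
  have h1 := congrArg (fun x => x / n) h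
  have h2 := congrArg (fun x => x % n) h
  simp only [FE_div, FE_mod] at h1 h2
  rw [Prod.mk.injEq]
  exact ⟨Fin.ext h1, Fin.ext h2⟩

lemma FE_compl {n : ℕ} (G : SimpleGraph (Fin n)) [DecidableRel G.Adj] (V : Finset (Fin n)) :
    FE_cut G Vᶜ = FE_cut G V := by
  unfold FE_cut
  ext ⟨a, b⟩
  simp only [Finset.mem_filter, Finset.mem_univ, true_and, Finset.mem_compl]
  tauto

lemma FE_img_card {n : ℕ} (G : SimpleGraph (Fin n)) [DecidableRel G.Adj] (V : Finset (Fin n)) :
    ((FE_cut G V).image (fun p => s(p.1, p.2))).card = (FE_cut G V).card := by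
  apply Finset.card_image_of_injOn
  rintro ⟨a, b⟩ h1 ⟨c, d⟩ h2 h
  simp only [FE_cut, Finset.coe_filter, Finset.mem_univ, true_and, Set.mem_ofPred_eq] at h1 h2
  simp only [Sym2.eq_iff] at h
  rcases h with ⟨rfl, rfl⟩ | ⟨rfl, rfl⟩
  · rfl
  · exact absurd h1.1 (by exact not_lt_of_gt h2.1)

theorem FE : FE_stmt := by
  intro n k G _
  constructor
  · rintro ⟨S, V₁, V₂, hS, hk, hd, hu, h1, h2, hno⟩
    have hV2 : V₂ = V₁ᶜ := by
      ext x
      have h3 : x ∈ V₁ ∪ V₂ := by rw [hu]; exact Finset.mem_univ x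
      rw [Finset.mem_compl]
      constructor
      · intro hx hx1
        exact Finset.disjoint_left.mp hd hx1 hx
      · intro hx
        rw [Finset.mem_union] at h3
        exact h3.resolve_left hx
    have hcard : V₁.card + V₂.card = n := by
      rw [← Finset.card_union_of_disjoint hd, hu, Finset.card_univ, Fintype.card_fin]
    have hcut : (FE_cut G V₁).card ≤ k := by
      rw [← FE_img_card]
      refine le_trans (Finset.card_le_card ?_) hk
      intro e he
      rw [Finset.mem_image] at he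
      obtain ⟨⟨a, b⟩, hp, rfl⟩ := he
      simp only [FE_cut, Finset.mem_filter, Finset.mem_univ, true_and] at hp
      obtain ⟨-, hG, hx⟩ := hp
      by_contra hS'
      by_cases ha : a ∈ V₁
      · have hb : b ∈ V₂ := by rw [hV2, Finset.mem_compl]; tauto
        apply hno a ha b hb
        rw [SimpleGraph.deleteEdges_adj]
        exact ⟨hG, hS'⟩
      · have hb : b ∈ V₁ := by tauto
        have ha' : a ∈ V₂ := by rw [hV2, Finset.mem_compl]; exact ha
        apply hno b hb a ha'
        rw [SimpleGraph.deleteEdges_adj]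
        refine ⟨hG.symm, ?_⟩
        rw [Sym2.eq_swap]
        exact hS'
    have hsub : ∀ V : Finset (Fin n), V.map Fin.valEmbedding ⊆ Finset.range n := by
      intro V x hx
      rw [Finset.mem_map] at hx
      obtain ⟨a, _, rfl⟩ := hx
      exact Finset.mem_range.mpr a.2
    rcases le_total V₁.card V₂.card with h | h
    · refine ⟨V₁.map Fin.valEmbedding, hsub _, ?_, ?_⟩
      · rw [Finset.card_map]; omega
      · rw [FE_dd]; exact hcut
    · refine ⟨V₂.map Fin.valEmbedding, hsub _, ?_, ?_⟩
      · rw [Finset.card_map]; omega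
      · rw [FE_dd, hV2, FE_compl]; exact hcut
  · rintro ⟨A, hA, hc, hk⟩
    set V : Finset (Fin n) := Finset.univ.filter (fun i => i.val ∈ A) with hV
    have hVA : V.map Fin.valEmbedding = A := by
      ext x
      simp only [hV, Finset.mem_map, Finset.mem_filter, Finset.mem_univ, true_and,
        Fin.valEmbedding_apply]
      constructor
      · rintro ⟨a, ha, rfl⟩; exact ha
      · intro hx
        exact ⟨⟨x, Finset.mem_range.mp (hA hx)⟩, hx, rfl⟩
    have hVc : V.card = n / 2 := by rw [← hc, ← hVA, Finset.card_map]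
    have hVc2 : Vᶜ.card = n - n / 2 := by
      rw [Finset.card_compl, Fintype.card_fin, hVc]
    refine ⟨(FE_cut G V).image (fun p => s(p.1, p.2)), V, Vᶜ, ?_, ?_, disjoint_compl_right,
      Finset.union_compl V, by omega, by omega, ?_⟩
    · intro e he
      simp only [FE_cut, Finset.coe_image, Set.mem_image, Finset.coe_filter, Finset.mem_univ,
        true_and, Set.mem_ofPred_eq, Prod.exists] at he
      obtain ⟨a, b, ⟨_, hG, _⟩, rfl⟩ := he
      exact hG
    · rw [FE_img_card, ← FE_dd, hVA]
      exact hk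
    · intro u hu v hv hadj
      rw [SimpleGraph.deleteEdges_adj] at hadj
      obtain ⟨hG, hS⟩ := hadj
      apply hS
      rw [Finset.mem_compl] at hv
      simp only [Finset.coe_image, Set.mem_image, Finset.mem_coe, Prod.exists]
      rcases lt_trichotomy u v with h | h | h
      · exact ⟨u, v, by simp [FE_cut, h, hG, hu, hv], rfl⟩
      · exact absurd hu (h ▸ hv)
      · exact ⟨v, u, by simp [FE_cut, h, hG.symm, hu, hv], Sym2.eq_swap⟩

end Pool.Agent.helper81.BS
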