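import Pool.Agent.helper81.BS.PTG
import Pool.Agent.helper81.BS.SpecG

/-!
# Edge bisection: the laminar family and the recursion over it
-/

set_option autoImplicit false
set_option linter.dupNamespace false
set_option linter.unusedVariables false
set_option linter.unusedSectionVars false

namespace Pool.Agent.helper81.BS

open Pool.Agent.helper81.PL Clip

/-- the parts with at least two elements of the tight partitions of the sets of a list -/
def nextL (N n : ℕ) (E : Finset ℕ) (k : ℕ) (Ws : List (Finset ℕ)) : List (Finset ℕ) :=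
  Ws.flatMap (fun W => (tightP N n E W k).filter (fun C => leb 2 C.card))

/-- one step: all sets so far (deepest first), the deepest level -/
def famS (N n : ℕ) (E : Finset ℕ) (k : ℕ) (s : List (Finset ℕ) × List (Finset ℕ)) :
    List (Finset ℕ) × List (Finset ℕ) :=
  (nextL N n E k s.2 ++ s.1, nextL N n E k s.2)

/-- all sets of the laminar family, deepest first -/
def famL (N n : ℕ) (E : Finset ℕ) (k : ℕ) : List (Finset ℕ) :=
  (citer N n (fun s => famS N n E k s) ([Finset.range n], [Finset.range n])).1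

/-- lookup in an association list -/
def lkp {τ : Type} (T : List (Finset ℕ × τ)) (C : Finset ℕ) : Option τ :=
  (T.find? (fun p => eqb p.1 C)).map (fun p => p.2)

/-- the recursion over the laminar family -/
def runF {τ : Type} [Clip τ] (N n : ℕ) (E : Finset ℕ) (k : ℕ)
    (nd : List (Finset ℕ × τ) → Finset ℕ → τ) : List (Finset ℕ × τ) :=
  cfold N (fun T W => (W, nd T W) :: T) [] (famL N n E k)

section

variable [S1]

@[fun_prop] theorem pt_nextL : PT (fun p : ℕ × ℕ × Finset ℕ × ℕ × List (Finset ℕ) =>
    nextL p.1 p.2.1 p.2.2.1 p.2.2.2.1 p.2.2.2.2) := by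
  unfold nextL; fun_prop

@[fun_prop] theorem pt_famS : PT (fun p : ℕ × ℕ × Finset ℕ × ℕ × List (Finset ℕ) × List (Finset ℕ) =>
    famS p.1 p.2.1 p.2.2.1 p.2.2.2.1 p.2.2.2.2) := by
  unfold famS; fun_prop

@[fun_prop] theorem pt_famL : PT (fun p : ℕ × ℕ × Finset ℕ × ℕ =>
    famL p.1 p.2.1 p.2.2.1 p.2.2.2) := by
  unfold famL; fun_prop

@[fun_prop] theorem pt_lkp {τ : Type} [Rep τ] :
    PT (fun p : List (Finset ℕ × τ) × Finset ℕ => lkp p.1 p.2) := by
  unfold lkp; fun_prop

@[fun_prop] theorem pt_runF {α τ : Type} [Rep α] [Rep τ] [Clip τ] [LClip τ] {N n k : α → ℕ}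
    {E : α → Finset ℕ} {nd : α → List (Finset ℕ × τ) → Finset ℕ → τ} (hN : PT N) (hn : PT n)
    (hk : PT k) (hE : PT E)
    (hnd : PT (fun p : α × List (Finset ℕ × τ) × Finset ℕ => nd p.1 p.2.1 p.2.2)) :
    PT (fun a => runF (N a) (n a) (E a) (k a) (nd a)) := by
  unfold runF
  refine pt_cfold hN ?_ (by fun_prop) (by fun_prop)
  have : PT (fun p : α × List (Finset ℕ × τ) × Finset ℕ => (p.2.2, nd p.1 p.2.1 p.2.2) :: p.2.1) := by
    fun_prop
  exact this

end

/-- the list is closed: the parts of every set occur before it -/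
def ClosedL (N n : ℕ) (E : Finset ℕ) (k : ℕ) (l : List (Finset ℕ)) : Prop :=
  ∀ l1 W l2, l = l1 ++ W :: l2 → ∀ C ∈ tightP N n E W k, 2 ≤ C.card → C ∈ l1

/-- disjoint nonempty subsets of `range n` -/
lemma length_le_of_disjoint {n : ℕ} {l : List (Finset ℕ)} (h1 : ∀ W ∈ l, W ⊆ Finset.range n)
    (h2 : ∀ W ∈ l, W.Nonempty) (h3 : l.Pairwise Disjoint) : l.length ≤ n := by
  have h : ∀ (l : List (Finset ℕ)) (U : Finset ℕ), (∀ W ∈ l, W ⊆ U) → (∀ W ∈ l, W.Nonempty) →
      l.Pairwise Disjoint → l.length ≤ U.card := by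
    intro l
    induction l with
    | nil => intro U _ _ _; simp
    | cons W l ih =>
      intro U h1 h2 h3
      rw [List.pairwise_cons] at h3
      have h4 := ih (U \ W) (fun C hC => by
        rw [Finset.subset_sdiff]
        exact ⟨h1 C (List.mem_cons_of_mem _ hC), (h3.1 C hC).symm⟩)
        (fun C hC => h2 C (List.mem_cons_of_mem _ hC)) h3.2
      have h5 : (U \ W).card + W.card = U.card :=
        Finset.card_sdiff_add_card_eq_card (h1 W List.mem_cons_self)
      have h6 : 0 < W.card := Finset.card_pos.mpr (h2 W List.mem_cons_self)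
      rw [List.length_cons]
      omega
  have := h l (Finset.range n) h1 h2 h3
  rwa [Finset.card_range] at this

/-- properties of one level -/
def LevOK (n : ℕ) (E : Finset ℕ) (k : ℕ) (i : ℕ) (l : List (Finset ℕ)) : Prop :=
  (∀ W ∈ l, W ⊆ Finset.range n ∧ 2 ≤ W.card ∧ dd n E W ≤ 2 * k ∧ W.card + i ≤ n) ∧
  l.Pairwise Disjoint

lemma LevOK.length {n : ℕ} {E : Finset ℕ} {k i : ℕ} {l : List (Finset ℕ)} (h : LevOK n E k i l) :
    l.length ≤ n :=
  length_le_of_disjoint (fun W hW => (h.1 W hW).1) (fun W hW => by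
    have := (h.1 W hW).2.1
    exact Finset.card_pos.mp (by omega)) h.2

lemma mem_nextL {N n : ℕ} {E : Finset ℕ} {k : ℕ} {l : List (Finset ℕ)} {C : Finset ℕ} :
    C ∈ nextL N n E k l ↔ ∃ W ∈ l, C ∈ tightP N n E W k ∧ 2 ≤ C.card := by
  simp [nextL, leb]

lemma part_sub {W : Finset ℕ} {PP : List (Finset ℕ)} (h : IsPart W PP) {C : Finset ℕ}
    (hC : C ∈ PP) : C ⊆ W := by
  intro x hx
  rw [← h.2.2, mem_unions]
  exact ⟨C, hC, hx⟩

/-- a part of a partition with at least two parts is smaller -/
lemma part_card_lt {W : Finset ℕ} {PP : List (Finset ℕ)} (h : IsPart W PP) (h2 : 2 ≤ PP.length)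
    {C : Finset ℕ} (hC : C ∈ PP) : C.card < W.card := by
  obtain ⟨l1, l2, rfl⟩ := List.append_of_mem hC
  have h3 := h.2.1
  rw [List.pairwise_append, List.pairwise_cons] at h3
  obtain ⟨D, hD, hCD⟩ : ∃ D ∈ l1 ++ C :: l2, Disjoint D C := by
    cases l1 with
    | nil =>
      cases l2 with
      | nil => simp at h2
      | cons D l2 => exact ⟨D, by simp, (h3.2.1.1 D (by simp)).symm⟩
    | cons D l1 => exact ⟨D, by simp, h3.2.2 D (by simp) C (by simp)⟩
  apply Finset.card_lt_card
  refine ⟨part_sub h (by simp), fun h4 => ?_⟩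
  obtain ⟨x, hx⟩ := h.1 D hD
  exact Finset.disjoint_left.mp hCD hx (h4 (part_sub h hD hx))

lemma nextL_ok (hT5 : T5_stmt) {N n : ℕ} {E : Finset ℕ} {k i : ℕ}
    (hN : n * n + n + 4 ^ (2 * k) ≤ N) (hE : WF n E) {l : List (Finset ℕ)}
    (h : LevOK n E k i l) : LevOK n E k (i + 1) (nextL N n E k l) := by
  have hG : ∀ W ∈ l, Good n E W k (tightP N n E W k) := fun W hW =>
    (hT5 N n E W k hN hE (h.1 W hW).1 (h.1 W hW).2.1).1
  constructor
  · intro C hC
    rw [mem_nextL] at hC
    obtain ⟨W, hW, hC, hC2⟩ := hC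
    have h1 := part_sub (hG W hW).1 hC
    have h2 := part_card_lt (hG W hW).1 (hG W hW).2.1 hC
    obtain ⟨h3, h4, h5, h6⟩ := h.1 W hW
    exact ⟨h1.trans h3, hC2, (hG W hW).2.2 C hC hC2, by omega⟩
  · unfold nextL
    rw [List.pairwise_flatMap]
    refine ⟨fun W hW => ((hG W hW).1.2.1).filter _, ?_⟩
    refine List.Pairwise.imp_of_mem ?_ h.2
    intro W W' hW hW' hd x hx y hy
    have h1 := part_sub (hG W hW).1 (List.mem_of_mem_filter hx)
    have h2 := part_sub (hG W' hW').1 (List.mem_of_mem_filter hy)
    exact Finset.disjoint_of_subset_left h1 (Finset.disjoint_of_subset_right h2 hd)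

theorem fam_inv (hT5 : T5_stmt) (N n : ℕ) (E : Finset ℕ) (k : ℕ)
    (hN : n * n + n + 4 ^ (2 * k) ≤ N) (hE : WF n E) (hn : 2 ≤ n) :
    ClosedL N n E k (famL N n E k) ∧ Finset.range n ∈ famL N n E k ∧
    (famL N n E k).length ≤ n * (n + 1) ∧
    ∀ W ∈ famL N n E k, W ⊆ Finset.range n ∧ 2 ≤ W.card ∧ dd n E W ≤ 2 * k := by
  have hN0 : n * n + n ≤ N := le_trans (Nat.le_add_right _ _) hN
  have hN1 : n * (n + 1) ≤ N := by
    have : n * (n + 1) = n * n + n := by ring
    omega
  have hN2 : n ≤ N := by
    have := Nat.zero_le (n * n)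
    omega
  -- the state after `i` steps
  set st := fun i : ℕ => (fun s => famS N n E k s)^[i] ([Finset.range n], [Finset.range n])
    with hst
  have h0 : LevOK n E k 0 [Finset.range n] := by
    refine ⟨fun W hW => ?_, List.pairwise_singleton _ _⟩
    rw [List.mem_singleton] at hW
    subst hW
    refine ⟨subset_rfl, by simpa using hn, ?_, by simp⟩
    have : dl n E (Finset.range n) = ∅ := by
      unfold dl
      rw [Finset.filter_eq_empty_iff]
      intro e he
      have h1 := hE e he
      have h2 : fmem (e / n) (Finset.range n) = true := by simp [fmem]; omega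
      have h3 : fmem (e % n) (Finset.range n) = true := by simp [fmem]; omega
      rw [h2, h3]
      simp
    simp [dd, this]
  have inv : ∀ i, LevOK n E k i (st i).2 ∧ (∃ r, (st i).1 = (st i).2 ++ r ∧
      (∀ r1 W r2, r = r1 ++ W :: r2 → ∀ C ∈ tightP N n E W k, 2 ≤ C.card → C ∈ (st i).2 ++ r1)) ∧
      (st i).1.length ≤ n * (i + 1) ∧ Finset.range n ∈ (st i).1 ∧
      ∀ W ∈ (st i).1, W ⊆ Finset.range n ∧ 2 ≤ W.card ∧ dd n E W ≤ 2 * k := by
    intro i
    induction i with
    | zero =>
      refine ⟨h0, ⟨[], by simp [hst], fun r1 W r2 h => by simp at h⟩, ?_, by simp [hst], ?_⟩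
      · simp [hst]; omega
      · intro W hW
        have := h0.1 W (by simpa [hst] using hW)
        exact ⟨this.1, this.2.1, this.2.2.1⟩
    | succ i ih =>
      have e : st (i + 1) = famS N n E k (st i) := by
        simp only [hst]
        rw [Function.iterate_succ_apply']
      obtain ⟨h1, ⟨r, h2, h3⟩, h4, h5, h6⟩ := ih
      have h7 := nextL_ok hT5 hN hE h1
      rw [e]
      simp only [famS]
      refine ⟨h7, ⟨(st i).1, rfl, ?_⟩, ?_, ?_, ?_⟩
      · intro r1 W r2 hr C hC hC2
        rw [h2] at hr
        rcases List.append_eq_append_iff.mp hr with ⟨a, ha1, ha2⟩ | ⟨a, ha1, ha2⟩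
        · -- `W` is in the older part
          have := h3 a W r2 ha2 C hC hC2
          rw [List.mem_append] at this ⊢
          right
          rw [ha1, List.mem_append]
          exact this
        · -- `W` is in the last level, or at the boundary
          cases a with
          | nil =>
            simp only [List.nil_append] at ha2
            have := h3 [] W r2 ha2.symm C hC hC2
            rw [List.append_nil] at this
            rw [List.mem_append]
            right
            rw [List.append_nil] at ha1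
            rw [← ha1]
            exact this
          | cons W' a =>
            simp only [List.cons_append, List.cons.injEq] at ha2
            obtain ⟨rfl, -⟩ := ha2
            rw [List.mem_append]
            left
            rw [mem_nextL]
            exact ⟨W, by rw [ha1]; simp, hC, hC2⟩
      · rw [List.length_append]
        have := h7.length
        nlinarith
      · rw [List.mem_append]; right; exact h5
      · intro W hW
        rw [List.mem_append] at hW
        rcases hW with hW | hW
        · have := h7.1 W hW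
          exact ⟨this.1, this.2.1, this.2.2.1⟩
        · exact h6 W hW
  have hfit : ∀ i ≤ n, Fits N (st i) := by
    intro i hi
    obtain ⟨h1, -, h4, -, h6⟩ := inv i
    simp only [fits_prod, fits_list, fits_finset]
    refine ⟨⟨?_, fun W hW x hx => ?_⟩, ?_, fun W hW x hx => ?_⟩
    · have : n * (i + 1) ≤ n * (n + 1) := Nat.mul_le_mul_left _ (by omega)
      omega
    · have := Finset.mem_range.mp ((h6 W hW).1 hx)
      omega
    · have := h1.length
      omega
    · have := Finset.mem_range.mp ((h1.1 W hW).1 hx)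
      omega
  have hfam : famL N n E k = (st n).1 := by
    unfold famL
    rw [citer_eq hfit]
  obtain ⟨h1, ⟨r, h2, h3⟩, h4, h5, h6⟩ := inv n
  have h7 : (st n).2 = [] := by
    rw [List.eq_nil_iff_forall_not_mem]
    intro W hW
    have := h1.1 W hW
    omega
  rw [hfam]
  refine ⟨?_, h5, h4, h6⟩
  intro l1 W l2 hl C hC hC2
  rw [h7, List.nil_append] at h2
  rw [h2] at hl
  have := h3 l1 W l2 hl C hC hC2
  rwa [h7, List.nil_append] at this

theorem runF_ok (hT5 : T5_stmt) {τ : Type} [Clip τ] (N n : ℕ) (E : Finset ℕ) (k : ℕ)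
    (nd : List (Finset ℕ × τ) → Finset ℕ → τ) (ok : Finset ℕ → τ → Prop)
    (hN : n * n + n + 4 ^ (2 * k) ≤ N) (hE : WF n E) (hn : 2 ≤ n)
    (h1 : ∀ T W, W ⊆ Finset.range n → 2 ≤ W.card → dd n E W ≤ 2 * k →
      (∀ C ∈ tightP N n E W k, 2 ≤ C.card → ∃ t, lkp T C = some t ∧ ok C t) → ok W (nd T W))
    (h2 : ∀ W t, ok W t → Fits N t) :
    ∃ t, lkp (runF N n E k nd) (Finset.range n) = some t ∧ ok (Finset.range n) t := by
  obtain ⟨f1, f2, f3, f4⟩ := fam_inv hT5 N n E k hN hE hn
  have hN0 : n * n + n ≤ N := le_trans (Nat.le_add_right _ _) hN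
  have hN1 : n * (n + 1) ≤ N := by
    have : n * (n + 1) = n * n + n := by ring
    omega
  have hN2 : n ≤ N := by
    have := Nat.zero_le (n * n)
    omega
  have key : ∀ (l1 l2 : List (Finset ℕ)) (T : List (Finset ℕ × τ)), famL N n E k = l1 ++ l2 →
      T.length = l1.length → (∀ p ∈ T, (∀ x ∈ p.1, x < n) ∧ Fits N p.2) →
      (∀ W ∈ l1, ∃ t, lkp T W = some t ∧ ok W t) →
      (∀ l', l' <+: l2 → Fits N (l'.foldl (fun T W => (W, nd T W) :: T) T)) ∧
      ∀ W ∈ famL N n E k, ∃ t, lkp (l2.foldl (fun T W => (W, nd T W) :: T) T) W = some t ∧ ok W t := by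
    intro l1 l2
    induction l2 generalizing l1 with
    | nil =>
      intro T h hT hF h3
      rw [List.append_nil] at h
      have hlen : T.length ≤ N := by
        rw [hT, ← h]
        exact f3.trans hN1
      refine ⟨fun l' hl' => ?_, fun W hW => h3 W (by rw [← h]; exact hW)⟩
      rw [List.prefix_nil] at hl'
      subst hl'
      simp only [List.foldl_nil, fits_list, fits_prod, fits_finset]
      exact ⟨hlen, fun p hp => ⟨fun x hx => ((hF p hp).1 x hx).trans_le hN2, (hF p hp).2⟩⟩
    | cons W l2 ih =>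
      intro T h hT hF h3
      have hW : W ∈ famL N n E k := by rw [h]; simp
      obtain ⟨w1, w2, w3⟩ := f4 W hW
      have hok : ok W (nd T W) := h1 T W w1 w2 w3
        (fun C hC hC2 => h3 C (f1 l1 W l2 h C hC hC2))
      have hlen : T.length ≤ N := by
        have : (famL N n E k).length = l1.length + (l2.length + 1) := by rw [h]; simp
        rw [hT]
        exact le_trans (by omega) (f3.trans hN1)
      obtain ⟨g1, g2⟩ := ih (l1 ++ [W]) ((W, nd T W) :: T) (by rw [h]; simp) (by simp [hT])
        (by
          intro p hp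
          rw [List.mem_cons] at hp
          rcases hp with rfl | hp
          · exact ⟨fun x hx => Finset.mem_range.mp (w1 hx), h2 W _ hok⟩
          · exact hF p hp)
        (by
          intro W' hW'
          by_cases hWW : W = W'
          · subst hWW
            exact ⟨nd T W, by simp [lkp, eqb], hok⟩
          · rw [List.mem_append, List.mem_singleton] at hW'
            rcases hW' with hW' | hW'
            · obtain ⟨t, ht1, ht2⟩ := h3 W' hW'
              refine ⟨t, ?_, ht2⟩
              rw [← ht1]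
              simp [lkp, eqb, hWW]
            · exact absurd hW'.symm hWW)
      refine ⟨fun l' hl' => ?_, g2⟩
      cases l' with
      | nil =>
        simp only [List.foldl_nil, fits_list, fits_prod, fits_finset]
        exact ⟨hlen, fun p hp => ⟨fun x hx => ((hF p hp).1 x hx).trans_le hN2,
          (hF p hp).2⟩⟩
      | cons W' l' =>
        rw [List.cons_prefix_cons] at hl'
        obtain ⟨rfl, hl'⟩ := hl'
        exact g1 l' hl'
  obtain ⟨g1, g2⟩ := key [] (famL N n E k) [] rfl rfl (by simp) (by simp)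
  unfold runF
  rw [cfold_eq g1]
  exact g2 _ f2

end Pool.Agent.helper81.BS
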