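import Pool.Agent.helper81.BS.Defs
import Pool.Agent.helper81.PL.SpecP

/-!
# Edge bisection: the problem, the input word, the final machine statement
-/

set_option autoImplicit false
set_option linter.dupNamespace false
set_option linter.unusedVariables false
set_option linter.unusedSectionVars false

namespace Pool.Agent.helper81.BS

open Pool.Agent.helper81.PL

/-- **Edge bisection**: there are a set `S` of at most `k` edges and a partition of the vertices into
two sets whose sizes differ by at most one, such that no edge of `G` outside `S` joins the two sets. -/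
def EdgeBisection {n : ℕ} (G : SimpleGraph (Fin n)) (k : ℕ) : Prop :=
  ∃ (S : Finset (Sym2 (Fin n))) (V₁ V₂ : Finset (Fin n)),
    (S : Set (Sym2 (Fin n))) ⊆ G.edgeSet ∧ S.card ≤ k ∧
    Disjoint V₁ V₂ ∧ V₁ ∪ V₂ = Finset.univ ∧
    V₁.card ≤ V₂.card + 1 ∧ V₂.card ≤ V₁.card + 1 ∧
    ∀ u ∈ V₁, ∀ v ∈ V₂, ¬ (G.deleteEdges (S : Set (Sym2 (Fin n)))).Adj u v

/-- the edge codes of a graph -/
def codes {n : ℕ} (G : SimpleGraph (Fin n)) [DecidableRel G.Adj] : Finset ℕ :=
  ((Finset.univ : Finset (Fin n × Fin n)).filter (fun p => p.1 < p.2 ∧ G.Adj p.1 p.2)).image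
    (fun p => p.1.val * n + p.2.val)

/-- the edge codes, from the input word -/
def inE (w : List Bool) : Finset ℕ :=
  ((List.range (inN w)).flatMap (fun a => (List.range (inN w)).filterMap (fun b =>
    bif leb (a + 1) b && inA w a b then some (a * inN w + b) else none))).toFinset

theorem pt_inE [S1] (h1 : INW1_stmt) (h2 : INW2_stmt) : PT inE := by
  have h1' : PT inN := h1
  have h2' : PT (fun p : List Bool × ℕ × ℕ => inA p.1 p.2.1 p.2.2) := h2
  unfold inE
  fun_prop

/-- FB1: the codes are edge codes, adjacency, and the word gives them back. -/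
theorem codes_wf {n : ℕ} (G : SimpleGraph (Fin n)) [DecidableRel G.Adj] : WF n (codes G) := by
  intro e he
  unfold codes at he
  rw [Finset.mem_image] at he
  obtain ⟨⟨a, b⟩, h, rfl⟩ := he
  rw [Finset.mem_filter] at h
  have hb := b.2
  have ha := a.2
  have hab : a.val < b.val := h.2.1
  have e1 : (a.val * n + b.val) / n = a.val := by
    rw [mul_comm, Nat.mul_add_div (by omega), Nat.div_eq_of_lt hb, add_zero]
  have e2 : (a.val * n + b.val) % n = b.val := by
    rw [mul_comm, Nat.mul_add_mod, Nat.mod_eq_of_lt hb]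
  simp only [e1, e2]
  exact ⟨hab, hb⟩

theorem inE_enc (h4 : INW4_stmt) (h5 : INW5_stmt) {n : ℕ} (k : ℕ) (G : SimpleGraph (Fin n))
    [DecidableRel G.Adj] : inE (encG n k G) = codes G := by
  have e1 := h4 n k G
  have e2 := h5 n k G
  ext x
  unfold inE codes
  rw [e1]
  simp only [List.mem_toFinset, List.mem_flatMap, List.mem_range, List.mem_filterMap,
    Finset.mem_image, Finset.mem_filter, Finset.mem_univ, true_and, Prod.exists]
  constructor
  · rintro ⟨a, ha, b, hb, h⟩
    have h' : (leb (a + 1) b && inA (encG n k G) a b) = true ∧ a * n + b = x := by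
      cases hc : (leb (a + 1) b && inA (encG n k G) a b) <;> rw [hc] at h <;> simp at h ⊢
      exact h
    rw [Bool.and_eq_true] at h'
    have h6 := e2 ⟨a, ha⟩ ⟨b, hb⟩
    simp only at h6
    rw [h6] at h'
    refine ⟨⟨a, ha⟩, ⟨b, hb⟩, ⟨?_, by simpa using h'.1.2⟩, h'.2⟩
    have := h'.1.1
    simp only [leb, decide_eq_true_eq] at this
    exact Fin.mk_lt_mk.mpr (by omega)
  · rintro ⟨a, b, ⟨hab, hG⟩, rfl⟩
    refine ⟨a.val, a.2, b.val, b.2, ?_⟩
    have h6 := e2 a b
    have h7 : leb (a.val + 1) b.val = true := by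
      simp only [leb, decide_eq_true_eq]
      exact hab
    rw [h6, h7]
    simp [hG]

/-- the final statement -/
def Final_stmt : Prop :=
  ∃ (M : Turing.TM2ComputableAux Bool Bool) (C : ℕ), ∀ (n k : ℕ) (G : SimpleGraph (Fin n))
    [DecidableRel G.Adj] [Decidable (EdgeBisection G k)],
    Nonempty (Turing.TM2OutputsInTime M.tm (List.map M.inputAlphabet.invFun (encG n k G))
      (some (List.map M.outputAlphabet.invFun [decide (EdgeBisection G k)]))
      (C ^ k * (n + 2) ^ C))

/-- FE: edge bisection in terms of codes. -/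
def FE_stmt : Prop :=
  ∀ (n k : ℕ) (G : SimpleGraph (Fin n)) [DecidableRel G.Adj],
    EdgeBisection G k ↔ ∃ A ⊆ Finset.range n, A.card = n / 2 ∧ dd n (codes G) A ≤ k

end Pool.Agent.helper81.BS
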