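import Pool.Agent.helper50.BS.SpecU
import Pool.Agent.helper50.BS.PTU
import Pool.Agent.helper81.BS.Fam
import Pool.Agent.helper81.BS.Fin1

/-!
# Edge bisection: the complete decision procedure and its correctness
-/

set_option autoImplicit false
set_option linter.dupNamespace false
set_option linter.unusedVariables false
set_option linter.unusedSectionVars false

namespace Pool.Agent.helper81.BS

open Pool.Agent.helper81.PL Pool.Agent.helper50.BT Clip

/-- the decision modulo `M` -/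
def decM (N n : ℕ) (E : Finset ℕ) (k M : ℕ) : Bool :=
  (lkp (runF N n E k (fun T W => nd N M n k E T W)) (Finset.range n)).elim false
    (fun T => read n k T)

/-- the decision -/
def decAll (N n : ℕ) (E : Finset ℕ) (k : ℕ) : Bool :=
  leb n 1 || (List.range (2 * (n + n * n + 1) + 1)).any (fun i => decM N n E k (i + 2))

@[fun_prop] theorem pt_decM [S1] : PT (fun p : ℕ × ℕ × Finset ℕ × ℕ × ℕ =>
    decM p.1 p.2.1 p.2.2.1 p.2.2.2.1 p.2.2.2.2) := by
  unfold decM
  fun_prop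

@[fun_prop] theorem pt_decAll [S1] : PT (fun p : ℕ × ℕ × Finset ℕ × ℕ =>
    decAll p.1 p.2.1 p.2.2.1 p.2.2.2) := by
  unfold decAll
  fun_prop

/-- the padding needed -/
def NN (n k : ℕ) : ℕ :=
  n * n + n + 1 + 4 ^ (2 * k) + 2 ^ (6 * k + 1) + (n + 1) * (k + 1) * (3 * k + 1) +
    (2 * (n + n * n + 1) + 2)

lemma big_le {N n k M : ℕ} (hB : Big N n k M) : n * n + n + 4 ^ (2 * k) ≤ N ∧ n * n ≤ N ∧
    4 ^ (2 * k) ≤ N ∧ M ≤ N ∧ (n + 1) * (k + 1) * (3 * k + 1) ≤ N := by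
  unfold Big at hB
  generalize 4 ^ (2 * k) = u at *
  generalize 2 ^ (6 * k + 1) = v at *
  generalize (n + 1) * (k + 1) * (3 * k + 1) = w at *
  generalize n * n = z at *
  omega

lemma nd_fits (hUA1 : UA1_stmt) (hUB1 : UB1_stmt) (hUB2 : UB2_stmt) {N M n k : ℕ}
    {E W : Finset ℕ} (Tl : List (Finset ℕ × List (Finset ℕ × List ℕ))) (hB : Big N n k M)
    (hM : 2 ≤ M) (hE : WF n E) (hW : dd n E W ≤ 2 * k) : Fits N (nd N M n k E Tl W) := by
  obtain ⟨-, -, -, h1, h2⟩ := hUA1 n E hE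
  obtain ⟨b1, b2, b3, hMN, b5⟩ := big_le hB
  have h5 : ∀ e ∈ dl n E W, e < N := by
    intro e he
    have := h2 e (h1 W he)
    omega
  have h6 : 2 ^ (dl n E W).card ≤ N := by
    calc 2 ^ (dl n E W).card ≤ 2 ^ (2 * k) := Nat.pow_le_pow_right (by norm_num) hW
      _ ≤ 4 ^ (2 * k) := Nat.pow_le_pow_left (by norm_num) _
      _ ≤ N := b3
  obtain ⟨h7, h8⟩ := hUB1 N (dl n E W) h5 h6
  have h9 : (psub N (dl n E W)).length = 2 ^ (dl n E W).card := by
    rw [← Finset.card_powerset, ← List.toFinset_card_of_nodup h7]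
    congr 1
    ext Q
    rw [List.mem_toFinset, h8, Finset.mem_powerset]
  unfold nd
  rw [fits_list]
  refine ⟨by rw [List.length_map, h9]; exact h6, ?_⟩
  intro x hx
  rw [List.mem_map] at hx
  obtain ⟨P, hP, rfl⟩ := hx
  rw [h8] at hP
  rw [fits_prod, fits_finset, fits_list]
  refine ⟨fun e he => h5 e (hP he), ?_⟩
  obtain ⟨g1, -, g3⟩ := hUB2 n k (3 * k) (fun a c j => bif eqb j 0 && leb a W.card then
      resE N M n k E Tl W (tightP N n E W k) P a c else 0) _ rfl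
  refine ⟨?_, ?_⟩
  · exact le_trans (le_of_eq g1) b5
  · intro y hy
    obtain ⟨a, c, j, -, -, -, rfl⟩ := g3 y hy
    rw [fits_nat]
    cases (eqb j 0 && leb a W.card)
    · simp
    · simp only [cond_true]
      unfold resE
      exact ((Nat.mod_lt _ (by omega)).le).trans hMN

theorem decM_ok (hUA1 : UA1_stmt) (hUB1 : UB1_stmt) (hUB2 : UB2_stmt) (hT5 : T5_stmt)
    (hTR1 : Pool.Agent.BS.TR1_stmt) (hUND : UND_stmt) (hURD : URD_stmt) {N n k M : ℕ}
    {E : Finset ℕ} (hB : Big N n k M) (hM : 2 ≤ M) (hE : WF n E) (hn : 2 ≤ n) :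
    decM N n E k M = true ↔
      ∃ c ≤ k, (Pool.Agent.BS.cnt (ig n E hE) (Finset.range n) ∅ (n / 2) c : ZMod M) ≠ 0 := by
  obtain ⟨T⟩ := hTR1 M n k (3 * k)
  have hN : n * n + n + 4 ^ (2 * k) ≤ N := (big_le hB).1
  obtain ⟨t, ht1, ht2⟩ := runF_ok hT5 N n E k (fun T W => nd N M n k E T W)
    (fun W t => okT E hE T W t ∧ Fits N t) hN hE hn
    (fun Tl W hW1 hW2 hW3 hC => by
      refine ⟨hUND N M n k E W Tl hE T hB hM hW1 hW2 hW3 (fun C hC1 hC2 => ?_),
        nd_fits hUA1 hUB1 hUB2 Tl hB hM hE hW3⟩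
      obtain ⟨t, ht, hok⟩ := hC C hC1 hC2
      unfold lkp at ht
      rw [Option.map_eq_some_iff] at ht
      obtain ⟨q, hq1, rfl⟩ := ht
      exact ⟨q, hq1, hok.1⟩)
    (fun W t h => h.2)
  unfold decM
  rw [ht1]
  exact hURD M n k E hE T t hM ht2.1

theorem decAll_ok (hUA1 : UA1_stmt) (hUB1 : UB1_stmt) (hUB2 : UB2_stmt) (hT5 : T5_stmt)
    (hTR1 : Pool.Agent.BS.TR1_stmt) (hUND : UND_stmt) (hURD : URD_stmt) (hUDEC : UDEC_stmt)
    {N n k : ℕ} {E : Finset ℕ} (hN : NN n k ≤ N) (hE : WF n E) :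
    decAll N n E k = true ↔ ∃ A ⊆ Finset.range n, A.card = n / 2 ∧ dd n E A ≤ k := by
  unfold decAll
  rw [Bool.or_eq_true]
  by_cases hn : n ≤ 1
  · refine ⟨fun _ => ⟨∅, by simp, ?_, ?_⟩, fun _ => Or.inl (by simpa [leb] using hn)⟩
    · simp; omega
    · have : dl n E ∅ = ∅ := by
        unfold dl
        rw [Finset.filter_eq_empty_iff]
        intro e _
        simp [fmem]
      simp [dd, this]
  · have hn2 : 2 ≤ n := by omega
    rw [← hUDEC n k E hE]
    have h0 : leb n 1 = false := by simp [leb]; omega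
    rw [h0, List.any_eq_true]
    simp only [Bool.false_eq_true, false_or, List.mem_range]
    have hbig : ∀ M, M ≤ 2 * (n + n * n + 1) + 2 → Big N n k M := by
      intro M hM
      unfold Big
      unfold NN at hN
      omega
    constructor
    · rintro ⟨i, hi, h⟩
      refine ⟨i + 2, by omega, by omega, ?_⟩
      exact (decM_ok hUA1 hUB1 hUB2 hT5 hTR1 hUND hURD (hbig _ (by omega)) (by omega) hE hn2).mp h
    · rintro ⟨M, h1, h2, h3⟩
      refine ⟨M - 2, by omega, ?_⟩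
      have e : M - 2 + 2 = M := by omega
      rw [e]
      exact (decM_ok hUA1 hUB1 hUB2 hT5 hTR1 hUND hURD (hbig _ (by omega)) (by omega) hE hn2).mpr h3

end Pool.Agent.helper81.BS
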