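import Pool.Agent.helper81.BS.Fin2
import Pool.Agent.helper81.BS.FE
import Pool.Agent.helper81.PL.SpecP

/-!
# Edge bisection: the final machine theorem
-/

set_option autoImplicit false
set_option linter.dupNamespace false
set_option linter.unusedVariables false
set_option linter.unusedSectionVars false

namespace Pool.Agent.helper81.BS

open Pool.Agent.helper81.PL Pool.Agent.helper50.BT Clip

/-- sixth power -/
def p6 (y : ℕ) : ℕ := y * y * (y * y) * (y * y)

/-- the decision from the padding number and the input word -/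
def decW (x : ℕ) (w : List Bool) : Bool := decAll (p6 (x * (inN w + 2))) (inN w) (inE w) (inK w)

lemma k1_le (k : ℕ) : k + 1 ≤ 2 ^ k := Nat.lt_two_pow_self

lemma NN_le (n k : ℕ) : NN n k ≤ p6 (64 ^ k * (n + 2)) := by
  have h1 : 4 ^ (2 * k) ≤ 64 ^ k := by
    rw [pow_mul]
    exact Nat.pow_le_pow_left (by norm_num) k
  have h2 : 2 ^ (6 * k + 1) = 2 * 64 ^ k := by
    rw [pow_succ, pow_mul]; norm_num; ring
  have h3 : (k + 1) * (3 * k + 1) ≤ 3 * 64 ^ k := by
    have h4 := k1_le k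
    have h5 : (k + 1) * (3 * k + 1) ≤ 3 * ((k + 1) * (k + 1)) := by nlinarith
    have h6 : (k + 1) * (k + 1) ≤ 2 ^ k * 2 ^ k := Nat.mul_le_mul h4 h4
    have h7 : 2 ^ k * 2 ^ k ≤ 64 ^ k := by
      rw [← mul_pow]
      exact Nat.pow_le_pow_left (by norm_num) k
    omega
  have ha : 1 ≤ 64 ^ k := Nat.one_le_pow _ _ (by norm_num)
  have h4 : (n + 1) * (k + 1) * (3 * k + 1) ≤ (n + 1) * (3 * 64 ^ k) := by
    rw [mul_assoc]
    exact Nat.mul_le_mul_left _ h3
  unfold NN
  rw [h2]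
  generalize 64 ^ k = a at *
  generalize (n + 1) * (k + 1) * (3 * k + 1) = u at *
  generalize 4 ^ (2 * k) = v at *
  have h5 : n * n + n + 1 + v + 2 * a + u + (2 * (n + n * n + 1) + 2) ≤
      3 * ((n + 2) * (n + 2)) + 3 * (a * (n + 2)) := by nlinarith
  have h6 : (n + 2) * (n + 2) ≤ (a * (n + 2)) * (a * (n + 2)) :=
    Nat.mul_le_mul (Nat.le_mul_of_pos_left _ ha) (Nat.le_mul_of_pos_left _ ha)
  have h7 : 2 ≤ a * (n + 2) := by nlinarith
  unfold p6
  refine h5.trans ?_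
  generalize a * (n + 2) = y at *
  have h8 : 2 * 2 ≤ y * y := Nat.mul_le_mul h7 h7
  have h9 : 4 * 4 ≤ (y * y) * (y * y) := Nat.mul_le_mul h8 h8
  have h10 : 16 * (y * y) ≤ y * y * (y * y) * (y * y) := Nat.mul_le_mul_right _ h9
  have h11 : y ≤ y * y := by nlinarith
  omega

theorem pt_decW [S1] (h1 : INW1_stmt) (h2 : INW2_stmt) (h3 : INW3_stmt) :
    PT (fun p : ℕ × List Bool => decW p.1 p.2) := by
  have h1' : PT inN := h1
  have h3' : PT inK := h3
  have h4' : PT inE := pt_inE h1 h2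
  unfold decW p6
  fun_prop

lemma final_time (D n k kk L : ℕ) (h1 : kk ≤ k) (h2 : L ≤ n + 1 + n * n + k) :
    D * (64 ^ kk + L + 1) ^ D ≤ (64 ^ D + 5 * D) ^ k * (n + 2) ^ (64 ^ D + 5 * D) := by
  have ha : 1 ≤ 64 ^ k := Nat.one_le_pow _ _ (by norm_num)
  have hk : 64 ^ kk ≤ 64 ^ k := Nat.pow_le_pow_right (by norm_num) h1
  have hk2 : k ≤ 64 ^ k := (Nat.lt_pow_self (by norm_num)).le
  have hb : 2 ≤ n + 2 := by omega
  have h3 : 64 ^ kk + L + 1 ≤ 64 ^ k * (n + 2) ^ 4 := by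
    generalize 64 ^ kk = a' at *
    generalize 64 ^ k = a at *
    have h4 : 64 ^ 0 = 1 := rfl
    have h5 : a' + L + 1 ≤ 2 * a + (n + 2) * (n + 2) := by nlinarith
    have h6 : 4 ≤ (n + 2) * (n + 2) := by nlinarith
    have h7 : (n + 2) ^ 4 = ((n + 2) * (n + 2)) * ((n + 2) * (n + 2)) := by ring
    rw [h7]
    generalize (n + 2) * (n + 2) = z at *
    have h8 : 4 * z ≤ z * z := Nat.mul_le_mul_right _ h6
    have h9 : a * (4 * z) ≤ a * (z * z) := Nat.mul_le_mul_left _ h8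
    have h10 : 1 * z ≤ a * z := Nat.mul_le_mul_right _ ha
    have h11 : a * 4 ≤ a * z := Nat.mul_le_mul_left _ h6
    have h12 : a * (4 * z) = 4 * (a * z) := by ring
    omega
  have h4 : (64 ^ kk + L + 1) ^ D ≤ (64 ^ k * (n + 2) ^ 4) ^ D := Nat.pow_le_pow_left h3 D
  have h5 : (64 ^ k * (n + 2) ^ 4) ^ D = (64 ^ D) ^ k * (n + 2) ^ (4 * D) := by
    rw [mul_pow, ← pow_mul, ← pow_mul, ← pow_mul, mul_comm k D]
  have h6 : D ≤ (n + 2) ^ D := by
    calc D ≤ 2 ^ D := Nat.lt_two_pow_self.le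
      _ ≤ (n + 2) ^ D := Nat.pow_le_pow_left hb D
  calc D * (64 ^ kk + L + 1) ^ D ≤ (n + 2) ^ D * ((64 ^ D) ^ k * (n + 2) ^ (4 * D)) := by
        rw [← h5]
        exact Nat.mul_le_mul h6 h4
    _ = (64 ^ D) ^ k * (n + 2) ^ (5 * D) := by
        have : 5 * D = D + 4 * D := by ring
        rw [this, pow_add]; ring
    _ ≤ (64 ^ D + 5 * D) ^ k * (n + 2) ^ (64 ^ D + 5 * D) := by
        refine Nat.mul_le_mul (Nat.pow_le_pow_left (Nat.le_add_right _ _) k)
          (Nat.pow_le_pow_right (by omega) (Nat.le_add_left _ _))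

theorem final_of [S1] (hPAD : PAD_stmt) (i1 : INW1_stmt) (i2 : INW2_stmt) (i3 : INW3_stmt)
    (i4 : INW4_stmt) (i5 : INW5_stmt) (i6 : INW6_stmt) (i7 : INW7_stmt)
    (hdec : ∀ N n k E, NN n k ≤ N → WF n E →
      (decAll N n E k = true ↔ ∃ A ⊆ Finset.range n, A.card = n / 2 ∧ dd n E A ≤ k)) :
    Final_stmt := by
  obtain ⟨D, hD⟩ := hPAD 64 inK decW i3 (pt_decW i1 i2 i3)
  classical
  obtain ⟨M, hM⟩ := hD (Σ n : ℕ, ℕ × SimpleGraph (Fin n)) (fun a => encG a.1 a.2.1 a.2.2)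
  refine ⟨M, 64 ^ D + 5 * D, ?_⟩
  intro n k G i j
  have hi : i = Classical.decRel G.Adj := Subsingleton.elim _ _
  subst hi
  obtain ⟨h⟩ := hM ⟨n, k, G⟩
  simp only at h
  have hcod : inE (encG n k G) = codes G := inE_enc i4 i5 k G
  have hkk : inK (encG n k G) = min k (n * n) := i6 n k G
  have hn : inN (encG n k G) = n := i4 n k G
  have hval : decW (64 ^ inK (encG n k G)) (encG n k G) = decide (EdgeBisection G k) := by
    have h1 := hdec (p6 (64 ^ min k (n * n) * (n + 2))) n (min k (n * n)) (codes G) (NN_le _ _)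
      (codes_wf G)
    have h2 : (∃ A ⊆ Finset.range n, A.card = n / 2 ∧ dd n (codes G) A ≤ min k (n * n)) ↔
        EdgeBisection G k := by
      rw [FE n k G]
      constructor
      · rintro ⟨A, a1, a2, a3⟩
        exact ⟨A, a1, a2, a3.trans (min_le_left _ _)⟩
      · rintro ⟨A, a1, a2, a3⟩
        refine ⟨A, a1, a2, le_min a3 ?_⟩
        calc dd n (codes G) A ≤ (codes G).card := Finset.card_le_card (Finset.filter_subset _ _)
          _ ≤ (Finset.range (n * n)).card := Finset.card_le_card (fun e he => by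
              rw [Finset.mem_range]
              have h3 := codes_wf G e he
              have h4 : e / n < n := by omega
              exact (Nat.div_lt_iff_lt_mul (by omega)).mp h4)
          _ = n * n := Finset.card_range _
    unfold decW
    rw [hn, hkk, hcod]
    rw [Bool.eq_iff_iff, h1, h2, decide_eq_true_iff]
  rw [← hval]
  refine ⟨⟨h.toEvalsTo, h.steps_le_m.trans ?_⟩⟩
  rw [hkk]
  exact final_time D n k (min k (n * n)) _ (min_le_left _ _) (i7 n k G)

end Pool.Agent.helper81.BS
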