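import Pool.Agent.helper81.BS.Defs

/-!
# Edge bisection, graph part: the functions are polynomial
-/

set_option autoImplicit false
set_option linter.dupNamespace false
set_option linter.unusedVariables false
set_option linter.unusedSectionVars false

namespace Pool.Agent.helper81.BS

open Pool.Agent.helper81.PL

variable [S1]

@[fun_prop] theorem pt_xor : PT (fun p : Bool × Bool => xor p.1 p.2) := by
  have : PT (fun p : Bool × Bool => bif p.1 then !p.2 else p.2) := by fun_prop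
  convert this using 2 with o
  cases o.1 <;> simp

@[fun_prop] theorem pt_dl : PT (fun p : ℕ × Finset ℕ × Finset ℕ => dl p.1 p.2.1 p.2.2) := by
  unfold dl; fun_prop

@[fun_prop] theorem pt_dd : PT (fun p : ℕ × Finset ℕ × Finset ℕ => dd p.1 p.2.1 p.2.2) := by
  unfold dd; fun_prop

@[fun_prop] theorem pt_adjb : PT (fun p : ℕ × Finset ℕ × ℕ × ℕ => adjb p.1 p.2.1 p.2.2.1 p.2.2.2) := by
  unfold adjb; fun_prop

@[fun_prop] theorem pt_grow1 : PT (fun p : ℕ × Finset ℕ × Finset ℕ × Finset ℕ =>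
    grow1 p.1 p.2.1 p.2.2.1 p.2.2.2) := by
  unfold grow1; fun_prop

@[fun_prop] theorem pt_comp : PT (fun p : ℕ × ℕ × Finset ℕ × Finset ℕ × ℕ =>
    comp p.1 p.2.1 p.2.2.1 p.2.2.2.1 p.2.2.2.2) := by
  unfold comp; fun_prop

@[fun_prop] theorem pt_res : PT (fun p : ℕ × Finset ℕ × Finset ℕ × ℕ × ℕ =>
    res p.1 p.2.1 p.2.2.1 p.2.2.2.1 p.2.2.2.2) := by
  unfold res; fun_prop

@[fun_prop] theorem pt_bfs1 : PT (fun p : ℕ × Finset ℕ × Finset ℕ × List (List ℕ) =>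
    bfs1 p.1 p.2.1 p.2.2.1 p.2.2.2) := by
  unfold bfs1; fun_prop

@[fun_prop] theorem pt_bfs : PT (fun p : ℕ × ℕ × Finset ℕ × Finset ℕ × Finset ℕ =>
    bfs p.1 p.2.1 p.2.2.1 p.2.2.2.1 p.2.2.2.2) := by
  unfold bfs; fun_prop

@[fun_prop] theorem pt_push1 : PT (fun p : ℕ × Finset ℕ × ℕ × ℕ =>
    push1 p.1 p.2.1 p.2.2.1 p.2.2.2) := by
  unfold push1; fun_prop

@[fun_prop] theorem pt_pushP : PT (fun p : ℕ × ℕ × Finset ℕ × List ℕ =>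
    pushP p.1 p.2.1 p.2.2.1 p.2.2.2) := by
  unfold pushP; fun_prop

@[fun_prop] theorem pt_augPath : PT (fun p : ℕ × ℕ × Finset ℕ × Finset ℕ × Finset ℕ × Finset ℕ =>
    augPath p.1 p.2.1 p.2.2.1 p.2.2.2.1 p.2.2.2.2.1 p.2.2.2.2.2) := by
  unfold augPath; fun_prop

@[fun_prop] theorem pt_aug : PT (fun p : ℕ × ℕ × Finset ℕ × Finset ℕ × Finset ℕ × Finset ℕ =>
    aug p.1 p.2.1 p.2.2.1 p.2.2.2.1 p.2.2.2.2.1 p.2.2.2.2.2) := by
  unfold aug; fun_prop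

@[fun_prop] theorem pt_flow : PT (fun p : ℕ × ℕ × Finset ℕ × Finset ℕ × Finset ℕ × ℕ =>
    flow p.1 p.2.1 p.2.2.1 p.2.2.2.1 p.2.2.2.2.1 p.2.2.2.2.2) := by
  unfold flow; fun_prop

@[fun_prop] theorem pt_back : PT (fun p : ℕ × ℕ × Finset ℕ × Finset ℕ × Finset ℕ =>
    back p.1 p.2.1 p.2.2.1 p.2.2.2.1 p.2.2.2.2) := by
  unfold back; fun_prop

@[fun_prop] theorem pt_fmD : PT (fun p : ℕ × ℕ × Finset ℕ × Finset ℕ × ℕ × Finset ℕ × ℕ × Finset ℕ =>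
    fmD p.1 p.2.1 p.2.2.1 p.2.2.2.1 p.2.2.2.2.1 p.2.2.2.2.2.1 p.2.2.2.2.2.2.1 p.2.2.2.2.2.2.2) := by
  unfold fmD; fun_prop

@[fun_prop] theorem pt_fm : PT (fun p : ℕ × ℕ × Finset ℕ × Finset ℕ × ℕ × Finset ℕ × ℕ =>
    fm p.1 p.2.1 p.2.2.1 p.2.2.2.1 p.2.2.2.2.1 p.2.2.2.2.2.1 p.2.2.2.2.2.2) := by
  unfold fm; fun_prop

@[fun_prop] theorem pt_ext : PT (fun p : ℕ × ℕ × Finset ℕ × Finset ℕ × ℕ × ℕ × Finset ℕ =>
    ext p.1 p.2.1 p.2.2.1 p.2.2.2.1 p.2.2.2.2.1 p.2.2.2.2.2.1 p.2.2.2.2.2.2) := by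
  unfold ext; fun_prop

@[fun_prop] theorem pt_impStep : PT (fun p : ℕ × ℕ × Finset ℕ × Finset ℕ × ℕ × ℕ × List (Finset ℕ) =>
    impStep p.1 p.2.1 p.2.2.1 p.2.2.2.1 p.2.2.2.2.1 p.2.2.2.2.2.1 p.2.2.2.2.2.2) := by
  unfold impStep; fun_prop

@[fun_prop] theorem pt_impL : PT (fun p : ℕ × ℕ × Finset ℕ × Finset ℕ × ℕ × ℕ =>
    impL p.1 p.2.1 p.2.2.1 p.2.2.2.1 p.2.2.2.2.1 p.2.2.2.2.2) := by
  unfold impL; fun_prop

@[fun_prop] theorem pt_allImp : PT (fun p : ℕ × ℕ × Finset ℕ × Finset ℕ × ℕ =>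
    allImp p.1 p.2.1 p.2.2.1 p.2.2.2.1 p.2.2.2.2) := by
  unfold allImp; fun_prop

@[fun_prop] theorem pt_tch : PT (fun p : ℕ × Finset ℕ × Finset ℕ =>
    tch p.1 p.2.1 p.2.2) := by
  unfold tch; fun_prop

@[fun_prop] theorem pt_beta : PT (fun p : ℕ × Finset ℕ × Finset ℕ × List (Finset ℕ) =>
    beta p.1 p.2.1 p.2.2.1 p.2.2.2) := by
  unfold beta; fun_prop

@[fun_prop] theorem pt_tt : PT (fun p : ℕ × Finset ℕ × Finset ℕ =>
    tt p.1 p.2.1 p.2.2) := by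
  unfold tt; fun_prop

@[fun_prop] theorem pt_violb : PT (fun p : ℕ × Finset ℕ × Finset ℕ × ℕ × List (Finset ℕ) × Finset ℕ =>
    violb p.1 p.2.1 p.2.2.1 p.2.2.2.1 p.2.2.2.2.1 p.2.2.2.2.2) := by
  unfold violb; fun_prop

@[fun_prop] theorem pt_uncA : PT (fun p : ℕ × Finset ℕ × List (Finset ℕ) × Finset ℕ =>
    uncA p.1 p.2.1 p.2.2.1 p.2.2.2) := by
  unfold uncA; fun_prop

@[fun_prop] theorem pt_uncB : PT (fun p : List (Finset ℕ) × Finset ℕ =>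
    uncB p.1 p.2) := by
  unfold uncB; fun_prop

@[fun_prop] theorem pt_improve : PT (fun p : ℕ × ℕ × Finset ℕ × Finset ℕ × ℕ × List (Finset ℕ) × List (Finset ℕ) =>
    improve p.1 p.2.1 p.2.2.1 p.2.2.2.1 p.2.2.2.2.1 p.2.2.2.2.2.1 p.2.2.2.2.2.2) := by
  unfold improve; fun_prop

@[fun_prop] theorem pt_tightP : PT (fun p : ℕ × ℕ × Finset ℕ × Finset ℕ × ℕ =>
    tightP p.1 p.2.1 p.2.2.1 p.2.2.2.1 p.2.2.2.2) := by
  unfold tightP; fun_prop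

end Pool.Agent.helper81.BS
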